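import Pool.Agent.TightD.Code
import Pool.Agent.PHW.Mirror
import Pool.Agent.PHW.Num2
import Pool.Agent.TightS.StarLev

/-!
TIGHT, direction 2: Star lev2 from Star lev.
-/

set_option autoImplicit false

namespace HexObs

namespace TD

open Finset

open scoped ENNReal

/-- first cut words in a box that end on the right side, reversed -/
def CB (K0 S : ℕ) : Set (List Bool) := {B | ∃ j b, S ≤ j ∧ j ≤ K0 * S ∧ b ∈ FC S j ∧ InBox b (K0 * S) ∧ 0 ≤ latE b ∧ B = rev b}

/-- module D4 -/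
def BMass : Prop := ∃ K0 : ℕ, 1 ≤ K0 ∧ ∀ S : ℕ, 1 ≤ S →
  ENNReal.ofReal (1 / 4) ≤ ∑ j ∈ Finset.Icc S (K0 * S), gf (FC S j ∩ {t | InBox t (K0 * S) ∧ 0 ≤ latE t})

lemma gf_rev_eq (P : Set (List Bool)) : gf {z | rev z ∈ P} = gf P := by
  unfold gf
  let e : {z | rev z ∈ P} ≃ P := {
    toFun z := ⟨rev z.1, z.2⟩
    invFun u := ⟨rev u.1, by
      show rev (rev u.1) ∈ P
      rw [rev_rev]
      exact u.2⟩
    left_inv z := Subtype.ext (rev_rev z.1)
    right_inv u := Subtype.ext (rev_rev u.1) }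
  rw [← Equiv.tsum_eq e (fun u : P => wE u)]
  refine tsum_congr fun z => ?_
  show wE z.1 = wE (rev z.1)
  rw [wE_rev]

lemma lat_rev' {T : ℕ} {b : List Bool} (hb : b ∈ Brd T) {i : ℕ} (hi : i ≤ b.length) :
    lat (rev b) i = latE b - lat b (b.length + 1 - i) := by
  have h1 := vx_rev oo up b i (by omega)
  rw [(mem_Brd.1 hb).2.2.1] at h1
  have h2 := vx_mulE (rotTo up (-up)) oo (tip oo up b) up (rev b) i
  rw [rotTo_apply (-up) upd, h1] at h2
  have e : ∀ q : Pt, mulE (rotTo up (-up)) q = -q := by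
    intro q
    have : rotTo up (-up) = (-1, 0) := by decide
    rw [this]
    unfold mulE
    ext <;> simp
  rw [e] at h2
  have h3 : (tip oo up b).1 = latE b := by
    unfold latE
    rw [lat_eq']
    have : tip oo up b = vx oo up b b.length + dx up b b.length := rfl
    rw [this, (mem_Brd.1 hb).2.2.1, Prod.fst_add]
    show _ + (0 : ℤ) = _
    ring
  have h4 := congrArg Prod.fst h2
  rw [Prod.fst_add, h3] at h4
  rw [lat_eq', lat_eq', h4]
  show _ = latE b - (latE b + -((vx oo up (rev b) i).1 - 0))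
  ring

lemma latE_rev' {T : ℕ} {b : List Bool} (hb : b ∈ Brd T) : latE (rev b) = latE b := by
  have h := lat_rev' hb (i := b.length) le_rfl
  have h1 : lat b 1 = 0 := by
    have : vx oo up b 1 = up := by
      show oo + up = up
      decide
    rw [lat_eq', this]
    rfl
  rw [show b.length + 1 - b.length = 1 by omega, h1, sub_zero] at h
  unfold latE at h ⊢
  rw [rev_length]
  exact h

/-- the part g is determined by g ++ B -/
lemma code_mid {K0 S a a' : ℕ} {g g' B B' : List Bool} (hg : g ∈ Brd a) (hg' : g' ∈ Brd a') (hB : B ∈ CB K0 S)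
    (hB' : B' ∈ CB K0 S) (h : g ++ B = g' ++ B') : g = g' := by
  have key : ∀ {a a' : ℕ} {g g' B B' d : List Bool}, g ∈ Brd a → g' ∈ Brd a' → B ∈ CB K0 S → B' ∈ CB K0 S →
      g' = g ++ d → B = d ++ B' → d = [] := by
    intro a a' g g' B B' d hg hg' hB hB' e1 e2
    obtain ⟨j, b, h1, h2, h3, h4, h5, rfl⟩ := hB
    obtain ⟨j', b', h1', h2', h3', h4', h5', rfl⟩ := hB'
    have hBb : rev b ∈ Brd j := Brd_rev h3.1
    have hBb' : rev b' ∈ Brd j' := Brd_rev h3'.1
    rw [e1] at hg'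
    have h6 := (Brd_cancel hg hg' (by
      intro i i1 i2
      rw [lev_cat (mem_Brd.1 hg).2.2.1, (mem_Brd.1 hg).2.2.2]
      have := ((mem_Brd.1 hBb).1 i i1 (by rw [e2, List.length_append]; omega)).1
      rw [e2, lev_append (by omega)] at this
      omega)).2
    obtain ⟨c, hc⟩ : ∃ c, c = a' - a := ⟨_, rfl⟩
    rw [← hc] at h6
    have h7 : b = b' ++ rev d := by
      rw [← rev_rev b, e2, rev_append', rev_rev]
    have h8 : j = j' + c := by
      have h9 := Brd_append h3'.1 (Brd_rev h6)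
      rw [← h7] at h9
      exact Brd_height h3.1 h9
    by_contra hne
    have hc0 : 1 ≤ c := by
      by_contra h0
      have : c = 0 := by omega
      rw [this, Brd_zero] at h6
      exact hne h6
    exact h3.2.2 j' h1' (by omega) ⟨b', rev d, c, h3'.1, Brd_rev h6, h7⟩
  rcases List.append_eq_append_iff.1 h with ⟨d, e1, e2⟩ | ⟨d, e1, e2⟩
  · have := key hg hg' hB hB' e1 e2
    subst this
    simp only [List.append_nil] at e1
    exact e1.symm
  · have := key hg' hg hB' hB e1 e2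
    subst this
    simp only [List.append_nil] at e1
    exact e1

lemma gf_CB (K0 S : ℕ) : ∑ j ∈ Finset.Icc S (K0 * S), gf (FC S j ∩ {t | InBox t (K0 * S) ∧ 0 ≤ latE t}) ≤ gf (CB K0 S) := by
  have hdisj : ∀ i ∈ Finset.Icc S (K0 * S), ∀ j ∈ Finset.Icc S (K0 * S), i ≠ j →
      Disjoint (FC S i ∩ {t | InBox t (K0 * S) ∧ 0 ≤ latE t}) (FC S j ∩ {t | InBox t (K0 * S) ∧ 0 ≤ latE t}) := by
    intro i _ j _ hij
    rw [Set.disjoint_left]
    intro t h1 h2
    exact hij (Brd_height h1.1.1 h2.1.1)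
  rw [← gf_biUnion _ _ hdisj, ← gf_rev_eq]
  apply gf_mono
  intro B hB
  have hB' : rev B ∈ ⋃ j ∈ Finset.Icc S (K0 * S), FC S j ∩ {t | InBox t (K0 * S) ∧ 0 ≤ latE t} := hB
  simp only [Set.mem_iUnion] at hB'
  obtain ⟨j, hj, h1, h2, h3⟩ := hB'
  rw [Finset.mem_Icc] at hj
  exact ⟨j, rev B, hj.1, hj.2, h1, h2, h3, (rev_rev B).symm⟩

/-- the middle part: bounds -/
lemma mid_bounds {N K0 T' : ℕ} {g B : List Bool} (hN : 1 ≤ N) (hT' : T' ≤ N) (hg : g ∈ Brd T') (hbox : InBox g N)
    (hB : B ∈ CB K0 (3 * N)) : ∃ t : ℕ, t ≤ (1 + 3 * K0) * N ∧ g ++ B ∈ Brd t ∧ InBox (g ++ B) ((1 + 6 * K0) * N) ∧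
      ∃ E : ℤ, N ≤ E ∧ lev2 (g ++ B) (g ++ B).length = 3 * E := by
  obtain ⟨j, b, h1, h2, h3, h4, h5, rfl⟩ := hB
  have hBb : rev b ∈ Brd j := Brd_rev h3.1
  have hcat := Brd_append hg hBb
  have hgd := (mem_Brd.1 hg).2.2.1
  have hK : K0 * (3 * N) = 3 * K0 * N := by ring
  rw [hK] at h2 h4
  have e1 : (1 + 3 * K0) * N = N + 3 * K0 * N := by ring
  have e2 : (1 + 6 * K0) * N = N + 2 * (3 * K0 * N) := by ring
  obtain ⟨M, hM⟩ : ∃ M, M = 3 * K0 * N := ⟨_, rfl⟩
  rw [← hM] at h2 h4 e1 e2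
  have hlat : ∀ i, i ≤ (rev b).length → |lat (rev b) i| ≤ 2 * M := by
    intro i hi
    rw [rev_length] at hi
    rcases Nat.eq_zero_or_pos i with h0 | h0
    · rw [h0]
      have : lat (rev b) 0 = 0 := by
        rw [lat_eq']
        rfl
      rw [this, abs_zero]
      positivity
    · rw [lat_rev' h3.1 hi]
      have a1 := h4 b.length le_rfl
      have a2 := h4 (b.length + 1 - i) (by omega)
      unfold latE
      rw [abs_le] at a1 a2 ⊢
      constructor <;> linarith [a1.1, a1.2, a2.1, a2.2]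
  have hvcat : ∀ k, lat (g ++ rev b) (g.length + k) = lat g g.length + lat (rev b) k := by
    intro k
    rw [lat_eq', lat_eq', lat_eq', vx_cat hgd, Prod.fst_add]
  refine ⟨T' + j, by omega, hcat, ?_, ?_⟩
  · rw [e2]
    intro i hi
    rw [List.length_append] at hi
    push_cast
    by_cases h : i ≤ g.length
    · have a1 := hbox i h
      rw [lat_eq', vx_append (by omega), ← lat_eq']
      have : (0 : ℤ) ≤ M := Nat.cast_nonneg M
      linarith
    · obtain ⟨k, rfl⟩ : ∃ k, i = g.length + k := ⟨i - g.length, by omega⟩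
      rw [hvcat k]
      have a1 := hbox g.length le_rfl
      have a2 := hlat k (by omega)
      rw [abs_le] at a1 a2 ⊢
      constructor <;> linarith [a1.1, a1.2, a2.1, a2.2]
  · have h6 := lev2_eq (g ++ rev b) (g ++ rev b).length
    have h7 := (mem_Brd.1 hcat).2.2.2
    rw [h7] at h6
    have h8 : lat (g ++ rev b) (g ++ rev b).length = lat g g.length + latE (rev b) := by
      rw [List.length_append, hvcat]
      rfl
    rw [h8, latE_rev' h3.1] at h6
    have a1 := hbox g.length le_rfl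
    rw [abs_le] at a1
    push_cast at h6
    have h9 : (3 * N : ℤ) ≤ j := by exact_mod_cast h1
    refine ⟨lev2 (g ++ rev b) (g ++ rev b).length / 3, ?_, ?_⟩
    · omega
    · omega

end TD

end HexObs
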