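import Pool.Agent.Tight.Prob
import Pool.Agent.Tight.LawK
import Pool.Agent.Tight.LatT
import Pool.Agent.PHW.Mirror

/-!
TIGHT, direction 2 from direction 1, module D4: the code B (first cut words in a box that end on the right).
-/

set_option autoImplicit false

namespace HexObs

namespace TD

open Finset ENNReal

lemma FC_map_not {s j : ℕ} {t : List Bool} (h : t ∈ FC s j) : t.map not ∈ FC s j := by
  obtain ⟨h1, h2, h3⟩ := h
  exact ⟨Brd_not h1, h2, fun c hc hcj hcut => h3 c hc hcj (Cut_not_iff.1 hcut)⟩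

lemma inBox_map_not {t : List Bool} {B : ℕ} (h : InBox t B) : InBox (t.map not) B := by
  intro i hi
  rw [List.length_map] at hi
  rw [lat_not t (by omega), abs_neg]
  exact h i hi

/-- mirror image: half of the mass of the first cut words in the box ends on the right -/
lemma half_mass (S j B : ℕ) : gf (FC S j ∩ {t | InBox t B}) ≤ 2 * gf (FC S j ∩ {t | InBox t B ∧ 0 ≤ latE t}) := by
  have h1 : FC S j ∩ {t | InBox t B} ⊆
      (FC S j ∩ {t | InBox t B ∧ 0 ≤ latE t}) ∪ (FC S j ∩ {t | InBox t B ∧ latE t ≤ 0}) := by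
    rintro t ⟨ht, hb⟩
    rcases le_total 0 (latE t) with h | h
    · exact Or.inl ⟨ht, hb, h⟩
    · exact Or.inr ⟨ht, hb, h⟩
  have h2 : gf (FC S j ∩ {t | InBox t B ∧ latE t ≤ 0}) ≤ gf (FC S j ∩ {t | InBox t B ∧ 0 ≤ latE t}) := by
    have h3 : gf (FC S j ∩ {t | InBox t B ∧ latE t ≤ 0}) ≤
        1 * gf (FC S j ∩ {t | InBox t B ∧ 0 ≤ latE t}) := by
      apply gf_le_of_inj (fun t => t.map not)
      · rintro t ⟨ht, hb, h⟩
        refine ⟨FC_map_not ht, inBox_map_not hb, ?_⟩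
        rw [latE_not]
        linarith
      · intro t _ s _ hts
        exact List.map_injective_iff.2 (fun a b => by cases a <;> cases b <;> simp) hts
      · intro t _
        rw [one_mul, wE_map_not]
    rwa [one_mul] at h3
  refine (gf_mono h1).trans ((gf_union_le _ _).trans ?_)
  rw [two_mul]
  exact add_le_add le_rfl h2

/-- the code B: first cut words in a box that end on the right -/
theorem bcode : ∃ K0 M : ℕ, 2 ≤ K0 ∧ K0 ≤ M ∧ ∀ S : ℕ, 1 ≤ S →
    ENNReal.ofReal (1 / 4) ≤ ∑ j ∈ Icc S (K0 * S), gf (FC S j ∩ {t | InBox t (M * S) ∧ 0 ≤ latE t}) := by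
  obtain ⟨K0, hK0, hU⟩ := UU_ratio_inv (1 / 4) (by norm_num)
  obtain ⟨M, hM, hB⟩ := FC_box latTail K0 (1 / 4) (by norm_num)
  refine ⟨K0, M, hK0, hM, fun S hS => ?_⟩
  have h1 : gf (FCW S) = 1 := by
    rw [← tsum_FCW S]
    unfold gf
    exact tsum_subtype (FCW S) wE
  have h2 : FCW S ⊆ {t | ∃ j, K0 * S < j ∧ t ∈ FC S j} ∪
      ((⋃ j ∈ Icc S (K0 * S), FC S j ∩ {t | ¬ InBox t (M * S)}) ∪
        (⋃ j ∈ Icc S (K0 * S), FC S j ∩ {t | InBox t (M * S)})) := by
    rintro t ⟨j, hj⟩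
    rcases Nat.lt_or_ge (K0 * S) j with h | h
    · exact Or.inl ⟨j, h, hj⟩
    · right
      have hj2 := hj.2.1
      by_cases hb : InBox t (M * S)
      · right
        simp only [Set.mem_iUnion]
        exact ⟨j, Finset.mem_Icc.2 ⟨hj2, h⟩, hj, hb⟩
      · left
        simp only [Set.mem_iUnion]
        exact ⟨j, Finset.mem_Icc.2 ⟨hj2, h⟩, hj, hb⟩
  have h3 : gf {t | ∃ j, K0 * S < j ∧ t ∈ FC S j} ≤ ENNReal.ofReal (1 / 4) :=
    (FCW_tail hK0 hS).trans (ENNReal.ofReal_le_ofReal (hU S hS))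
  have h4 : gf (⋃ j ∈ Icc S (K0 * S), FC S j ∩ {t | ¬ InBox t (M * S)}) ≤ ENNReal.ofReal (1 / 4) :=
    (ENNReal.tsum_biUnion_le wE _ _).trans (hB S hS)
  have h5 : gf (⋃ j ∈ Icc S (K0 * S), FC S j ∩ {t | InBox t (M * S)}) ≤
      2 * ∑ j ∈ Icc S (K0 * S), gf (FC S j ∩ {t | InBox t (M * S) ∧ 0 ≤ latE t}) := by
    refine (ENNReal.tsum_biUnion_le wE _ _).trans ?_
    rw [Finset.mul_sum]
    exact Finset.sum_le_sum fun j _ => half_mass S j (M * S)
  set X := ∑ j ∈ Icc S (K0 * S), gf (FC S j ∩ {t | InBox t (M * S) ∧ 0 ≤ latE t}) with hX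
  have h6 : (1 : ℝ≥0∞) ≤ ENNReal.ofReal (1 / 4) + (ENNReal.ofReal (1 / 4) + 2 * X) := by
    rw [← h1]
    exact (gf_mono h2).trans ((gf_union_le _ _).trans (add_le_add h3 ((gf_union_le _ _).trans (add_le_add h4 h5))))
  rcases eq_or_ne X ⊤ with h7 | h7
  · rw [h7]
    exact le_top
  · have h8 := ENNReal.toReal_mono (by
      rw [← add_assoc]
      exact ENNReal.add_ne_top.2 ⟨ENNReal.add_ne_top.2 ⟨ENNReal.ofReal_ne_top, ENNReal.ofReal_ne_top⟩,
        ENNReal.mul_ne_top (by norm_num) h7⟩) h6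
    rw [ENNReal.toReal_add ENNReal.ofReal_ne_top (ENNReal.add_ne_top.2 ⟨ENNReal.ofReal_ne_top,
      ENNReal.mul_ne_top (by norm_num) h7⟩), ENNReal.toReal_add ENNReal.ofReal_ne_top
      (ENNReal.mul_ne_top (by norm_num) h7), ENNReal.toReal_mul, ENNReal.toReal_ofReal (by norm_num),
      ENNReal.toReal_one, ENNReal.toReal_ofNat] at h8
    rw [← ENNReal.ofReal_toReal h7]
    exact ENNReal.ofReal_le_ofReal (by linarith)

end TD

end HexObs
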