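import Pool.Agent.TightD.StarD
import Pool.Agent.TightD.BCode

/-!
TIGHT, direction 2: Star lev2 from Star lev.
-/

set_option autoImplicit false

namespace HexObs

namespace TD

open Finset

open scoped ENNReal

lemma CW_pos' : 0 < CW := Num2Aux.CW_pos

/-- the code words have a positive weight -/
lemma T1_mass (Q : ℕ) (hQ : 1 ≤ Q) : ∃ c : ℝ, 0 < c ∧ ∀ N : ℕ, 1 ≤ N → ENNReal.ofReal c ≤ gf (T1 (Q * N) N) := by
  have hCW := CW_pos'
  have hQ0 : (0 : ℝ) < (Q : ℝ) + 1 := by positivity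
  refine ⟨1 / (4 * (6 + CW) * ((Q : ℝ) + 1)), by positivity, fun N hN => ?_⟩
  have hQN : 1 ≤ Q * N := Nat.mul_pos hQ hN
  have h1 := gf_T1 (Q * N) N hQN
  obtain ⟨M, hM⟩ : ∃ M, M = 2 * (Q * N + N) := ⟨_, rfl⟩
  rw [← hM] at h1
  have h2 : ENNReal.ofReal (N * (uu M / 2)) ≤ ∑ r ∈ Finset.Ico (Q * N) (Q * N + N), gf (Tri r) := by
    have h3 : ∀ r ∈ Finset.Ico (Q * N) (Q * N + N), ENNReal.ofReal (uu M / 2) ≤ gf (Tri r) := by
      intro r hr
      rw [Finset.mem_Ico] at hr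
      refine le_trans ?_ (gf_Tri (by omega))
      apply ENNReal.ofReal_le_ofReal
      have := uu_anti (show 2 * r ≤ M by omega)
      linarith
    refine le_trans ?_ (Finset.sum_le_sum h3)
    rw [Finset.sum_const, Nat.card_Ico, Nat.add_sub_cancel_left, nsmul_eq_mul, ENNReal.ofReal_mul (Nat.cast_nonneg N),
      ENNReal.ofReal_natCast]
  have hM1 : 1 ≤ M := by omega
  have h4 := UU_le_mul hM1
  have hu := uu_pos M
  have hMR : (M : ℝ) = 2 * ((Q : ℝ) + 1) * N := by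
    rw [hM]
    push_cast
    ring
  have hN0 : (0 : ℝ) < N := by exact_mod_cast hN
  have hUM := Num2Aux.UU_pos M
  have h5 : ENNReal.ofReal (N * (uu M / 2)) ≤ gf (T1 (Q * N) N) * ENNReal.ofReal (UU M) := h2.trans h1
  have h6 : ENNReal.ofReal (1 / (4 * (6 + CW) * ((Q : ℝ) + 1))) * ENNReal.ofReal (UU M) ≤
      gf (T1 (Q * N) N) * ENNReal.ofReal (UU M) := by
    refine le_trans ?_ h5
    rw [← ENNReal.ofReal_mul (by positivity)]
    apply ENNReal.ofReal_le_ofReal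
    rw [div_mul_eq_mul_div, one_mul, div_le_iff₀ (by positivity)]
    refine h4.trans (le_of_eq ?_)
    rw [hMR]
    ring
  exact (ENNReal.mul_le_mul_iff_left (ENNReal.ofReal_pos.2 hUM).ne' ENNReal.ofReal_ne_top).1 h6

/-- the sum over the grid -/
lemma sum_HH {C : ℝ} {T K' d nk m : ℕ} (hT : 1 ≤ T) (hK' : 1 ≤ K') (hd : 1 ≤ d)
    (hC : ∀ (K T m : ℕ) (a b : ℤ), 1 ≤ K → 1 ≤ T → a < b →
      ∑ T' ∈ range (K * T + 1), gf {g | g ∈ Brd T' ∧ InBox g (K * T) ∧ Tight.Alt (lev g) g.length a b m} ≤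
        ENNReal.ofReal (UU T * (Real.exp (C * (K + (K * T : ℝ) / ((b : ℝ) - a)) ^ C) * (1 / 2) ^ m))) :
    ∑ H ∈ range (K' * T + 1), gf (HH (K' * T) d nk m H) ≤
      ENNReal.ofReal ((nk + 1) * (UU T * (Real.exp (C * (K' + (K' * T : ℝ) / d) ^ C) * (1 / 2) ^ m))) := by
  have h1 : ∀ H ∈ range (K' * T + 1), gf (HH (K' * T) d nk m H) ≤ ∑ k ∈ range (nk + 1),
      gf {g | g ∈ Brd H ∧ InBox g (K' * T) ∧ Tight.Alt (lev g) g.length ((k : ℤ) * d) (((k : ℤ) + 1) * d) m} := by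
    intro H _
    refine (gf_mono ?_).trans (ENNReal.tsum_biUnion_le wE (range (nk + 1)) (fun k : ℕ =>
      {g | g ∈ Brd H ∧ InBox g (K' * T) ∧ Tight.Alt (lev g) g.length ((k : ℤ) * d) (((k : ℤ) + 1) * d) m}))
    rintro g ⟨h1, h2, k, h3, h4⟩
    simp only [Set.mem_iUnion]
    exact ⟨k, Finset.mem_range.2 (by omega), h1, h2, h4⟩
  refine (Finset.sum_le_sum h1).trans ?_
  rw [Finset.sum_comm]
  have h2 : ∀ k ∈ range (nk + 1), ∑ H ∈ range (K' * T + 1),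
      gf {g | g ∈ Brd H ∧ InBox g (K' * T) ∧ Tight.Alt (lev g) g.length ((k : ℤ) * d) (((k : ℤ) + 1) * d) m} ≤
      ENNReal.ofReal (UU T * (Real.exp (C * (K' + (K' * T : ℝ) / d) ^ C) * (1 / 2) ^ m)) := by
    intro k _
    have hd0 : (0 : ℤ) < d := by exact_mod_cast hd
    have h3 := hC K' T m ((k : ℤ) * d) (((k : ℤ) + 1) * d) hK' hT (by linarith)
    have e : ((((k : ℤ) + 1) * d : ℤ) : ℝ) - (((k : ℤ) * d : ℤ) : ℝ) = d := by
      push_cast
      ring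
    rw [e] at h3
    exact h3
  refine (Finset.sum_le_sum h2).trans ?_
  rw [Finset.sum_const, Finset.card_range, nsmul_eq_mul, ← ENNReal.ofReal_natCast,
    ← ENNReal.ofReal_mul (Nat.cast_nonneg _)]
  push_cast
  exact le_rfl

/-- **direction 2 from direction 1** -/
theorem star_lev2 (h1 : Star lev) (hB : BMass) : Star lev2 := by
  obtain ⟨C, hC1, hC⟩ := h1
  obtain ⟨K0, hK0, hB⟩ := hB
  obtain ⟨Q, hQ⟩ : ∃ Q : ℕ, Q = 4 + 27 * K0 := ⟨_, rfl⟩
  obtain ⟨c, hc, hT1⟩ := T1_mass Q (by omega)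
  obtain ⟨P, hP⟩ : ∃ P : ℕ, P = 20 * Q + 20 := ⟨_, rfl⟩
  obtain ⟨c3, hc3⟩ : ∃ c3 : ℝ, c3 = 4 / c ^ 2 * (9 * P + 2) := ⟨_, rfl⟩
  obtain ⟨c4, hc4⟩ : ∃ c4 : ℝ, c4 = C * (3 * (P : ℝ)) ^ C := ⟨_, rfl⟩
  have hP0 : (1 : ℝ) ≤ P := by
    rw [hP]
    push_cast
    have : (0 : ℝ) ≤ Q := Nat.cast_nonneg Q
    linarith
  have hc30 : 0 ≤ c3 := by
    rw [hc3]
    positivity
  have hc40 : 0 ≤ c4 := by
    rw [hc4]
    have : 0 ≤ (3 * (P : ℝ)) ^ C := Real.rpow_nonneg (by positivity) _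
    positivity
  obtain ⟨D, hD⟩ : ∃ D : ℝ, D = c3 + c4 + C := ⟨_, rfl⟩
  refine ⟨D, by linarith, fun K T m a b hK hT hab => ?_⟩
  obtain ⟨y, hy⟩ : ∃ y : ℝ, y = K + (K * T : ℝ) / ((b : ℝ) - a) := ⟨_, rfl⟩
  rw [← hy]
  have hba : (0 : ℝ) < (b : ℝ) - a := by
    have : (a : ℝ) < b := by exact_mod_cast hab
    linarith
  have hK1 : (1 : ℝ) ≤ K := by exact_mod_cast hK
  have hq0 : 0 ≤ (K * T : ℝ) / ((b : ℝ) - a) := by positivity
  have hKy : (K : ℝ) ≤ y := by linarith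
  have hqy : (K * T : ℝ) / ((b : ℝ) - a) ≤ y := by linarith
  have hy1 : 1 ≤ y := by linarith
  have hUT := (Num2Aux.UU_pos T).le
  have hyD : y ^ C ≤ y ^ D := Real.rpow_le_rpow_of_exponent_le hy1 (by linarith)
  have hyC : y ≤ y ^ C := by
    calc y = y ^ (1 : ℝ) := (Real.rpow_one y).symm
      _ ≤ y ^ C := Real.rpow_le_rpow_of_exponent_le hy1 hC1
  have hyC0 : 0 ≤ y ^ C := Real.rpow_nonneg (by linarith) _
  have hexp : ∀ z : ℝ, z ≤ (c3 + c4 + 1) * y ^ C → Real.exp z ≤ Real.exp (D * y ^ D) := by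
    intro z hz
    apply Real.exp_le_exp.2
    refine hz.trans ?_
    calc (c3 + c4 + 1) * y ^ C ≤ D * y ^ C := mul_le_mul_of_nonneg_right (by linarith) hyC0
      _ ≤ D * y ^ D := mul_le_mul_of_nonneg_left hyD (by linarith)
  by_cases hm : m = 0
  · have h2 := TS.triv1 K T hK (fun T' => {g | g ∈ Brd T' ∧ InBox g (K * T) ∧ Tight.Alt (lev2 g) g.length a b m})
      (fun T' g hg => hg.1)
    refine h2.trans (ENNReal.ofReal_le_ofReal ?_)
    rw [hm, pow_zero, mul_one, mul_comm]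
    apply mul_le_mul_of_nonneg_left _ hUT
    refine le_trans (hKy.trans (TS.le_exp' y)) (hexp y ?_)
    nlinarith
  -- parameters
  obtain ⟨r, hr⟩ : ∃ r : ℕ, b = a + r := ⟨(b - a).toNat, by omega⟩
  have hr1 : 1 ≤ r := by omega
  obtain ⟨d, hd⟩ : ∃ d : ℕ, d = max 1 (r / 2) := ⟨_, rfl⟩
  have hd1 : 1 ≤ d := by rw [hd]; exact le_max_left _ _
  have hdr : r ≤ 3 * d := by rw [hd]; omega
  have hdab : (2 * d : ℤ) ≤ b - a ∨ (d = 1 ∧ b = a + 1) := by
    rcases Nat.lt_or_ge r 2 with h | h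
    · right
      have : r = 1 := by omega
      subst this
      exact ⟨by rw [hd]; rfl, by rw [hr]; norm_num⟩
    · left
      have : d = r / 2 := by rw [hd]; omega
      omega
  have hd0 : (0 : ℝ) < d := by exact_mod_cast hd1
  have hbar : (b : ℝ) - a = r := by
    rw [hr]
    push_cast
    ring
  have hrd : (K * T : ℝ) / d ≤ 3 * y := by
    have h2 : (r : ℝ) ≤ 3 * d := by exact_mod_cast hdr
    rw [div_le_iff₀ hd0]
    have h3 : (K * T : ℝ) ≤ y * r := by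
      rw [← hbar]
      exact (div_le_iff₀ hba).1 hqy
    have h4 : y * (r : ℝ) ≤ y * (3 * d) := mul_le_mul_of_nonneg_left h2 (by linarith)
    linarith
  have hKT : 1 ≤ K * T := Nat.mul_pos hK hT
  obtain ⟨nk, hnk⟩ : ∃ nk : ℕ, nk = 3 * (P * K * T) / d + 1 := ⟨_, rfl⟩
  have hnk1 : 3 * (P * K * T) ≤ nk * d := by
    rw [hnk]
    have := Nat.lt_div_mul_add (a := 3 * (P * K * T)) (b := d) hd1
    rw [add_mul, one_mul]
    omega
  have hnk2 : (nk : ℝ) + 1 ≤ (9 * P + 2) * y := by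
    rw [hnk]
    push_cast
    have h2 : ((3 * (P * K * T) / d : ℕ) : ℝ) ≤ 9 * P * y := by
      refine Nat.cast_div_le.trans ?_
      push_cast
      have h3 : 3 * ((P : ℝ) * K * T) / d = 3 * P * ((K * T : ℝ) / d) := by
        field_simp
      rw [h3]
      calc 3 * (P : ℝ) * ((K * T : ℝ) / d) ≤ 3 * P * (3 * y) := by gcongr
        _ = 9 * P * y := by ring
    have h3 : ((9 : ℝ) * P + 2) * y = 9 * P * y + 2 * y := by ring
    linarith
  have h2 := embed (K0 := K0) (Q := Q) (m := m) (nk := nk) (d := d) (W := P * K * T) (a := a) (b := b) hKT (by omega)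
    hd1 (by omega) (by rw [hP]; exact le_of_eq (by ring)) hdab hnk1
  have hPK : 1 ≤ P * K := Nat.mul_pos (by omega) hK
  have h3 := sum_HH (C := C) (T := T) (K' := P * K) (d := d) (nk := nk) (m := m) hT hPK hd1
    (fun K T m' a b => hC K T m' a b)
  have h4 := h2.trans h3
  obtain ⟨S, hS⟩ : ∃ S : ℝ≥0∞, S = ∑ T' ∈ range (K * T + 1),
    gf {g | g ∈ Brd T' ∧ InBox g (K * T) ∧ Tight.Alt (lev2 g) g.length a b m} := ⟨_, rfl⟩
  rw [← hS] at h4 ⊢
  have h5 : ENNReal.ofReal (1 / 4) ≤ gf (CB K0 (3 * (K * T))) := (hB _ (by omega)).trans (gf_CB _ _)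
  have h6 : ENNReal.ofReal c * (S * ENNReal.ofReal (1 / 4) * ENNReal.ofReal c) ≤
      ENNReal.ofReal ((nk + 1) * (UU T * (Real.exp (C * ((P * K : ℕ) + ((P * K : ℕ) * T : ℝ) / d) ^ C) * (1 / 2) ^ m))) := by
    refine le_trans ?_ h4
    have := hT1 (K * T) hKT
    gcongr
  have h7 : S ≤ ENNReal.ofReal (4 / c ^ 2) *
      ENNReal.ofReal ((nk + 1) * (UU T * (Real.exp (C * ((P * K : ℕ) + ((P * K : ℕ) * T : ℝ) / d) ^ C) * (1 / 2) ^ m))) := by
    have e1 : ENNReal.ofReal (4 / c ^ 2) * (ENNReal.ofReal c * (S * ENNReal.ofReal (1 / 4) * ENNReal.ofReal c)) = S := by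
      have e2 : ENNReal.ofReal (4 / c ^ 2) * ENNReal.ofReal c * ENNReal.ofReal (1 / 4) * ENNReal.ofReal c = 1 := by
        rw [← ENNReal.ofReal_mul (by positivity), ← ENNReal.ofReal_mul (by positivity),
          ← ENNReal.ofReal_mul (by positivity), ← ENNReal.ofReal_one]
        congr 1
        field_simp
      calc ENNReal.ofReal (4 / c ^ 2) * (ENNReal.ofReal c * (S * ENNReal.ofReal (1 / 4) * ENNReal.ofReal c)) =
          (ENNReal.ofReal (4 / c ^ 2) * ENNReal.ofReal c * ENNReal.ofReal (1 / 4) * ENNReal.ofReal c) * S := by ring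
        _ = S := by rw [e2, one_mul]
    rw [← e1]
    exact mul_le_mul_right h6 _
  refine h7.trans ?_
  rw [← ENNReal.ofReal_mul (by positivity)]
  apply ENNReal.ofReal_le_ofReal
  have h8 : (((P * K : ℕ) : ℝ) + (((P * K : ℕ) : ℝ) * T : ℝ) / d) ≤ 3 * P * y := by
    push_cast
    have e1 : (P : ℝ) * K * T / d = P * ((K * T : ℝ) / d) := by field_simp
    rw [e1]
    have hrd' : (K * T : ℝ) / d ≤ 3 * ((K * T : ℝ) / ((b : ℝ) - a)) := by
      rw [hbar]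
      have hr0 : (0 : ℝ) < r := by exact_mod_cast hr1
      have h2 : (r : ℝ) ≤ 3 * d := by exact_mod_cast hdr
      rw [div_le_iff₀ hd0]
      have e2 : 3 * ((K * T : ℝ) / r) * d = (K * T) * (3 * d / r) := by field_simp
      rw [e2]
      have e3 : 1 ≤ 3 * (d : ℝ) / r := by rw [le_div_iff₀ hr0]; linarith
      have e4 : (0 : ℝ) ≤ K * T := by positivity
      nlinarith
    have e5 : (P : ℝ) * K + P * ((K * T : ℝ) / d) = P * (K + (K * T : ℝ) / d) := by ring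
    rw [e5]
    have e6 : (K : ℝ) + (K * T : ℝ) / d ≤ 3 * y := by
      rw [hy]
      linarith
    calc (P : ℝ) * (K + (K * T : ℝ) / d) ≤ P * (3 * y) := by gcongr
      _ = 3 * P * y := by ring
  have h9 : C * (((P * K : ℕ) : ℝ) + (((P * K : ℕ) : ℝ) * T : ℝ) / d) ^ C ≤ c4 * y ^ C := by
    rw [hc4, mul_assoc C]
    rw [← Real.mul_rpow (by positivity) (by linarith)]
    apply mul_le_mul_of_nonneg_left _ (by linarith)
    apply Real.rpow_le_rpow (by positivity) _ (by linarith)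
    calc _ ≤ 3 * P * y := h8
      _ = 3 * (P : ℝ) * y := rfl
  calc 4 / c ^ 2 * ((nk + 1) * (UU T * (Real.exp (C * (((P * K : ℕ) : ℝ) + (((P * K : ℕ) : ℝ) * T : ℝ) / d) ^ C) * (1 / 2) ^ m))) ≤
      4 / c ^ 2 * (((9 * P + 2) * y) * (UU T * (Real.exp (c4 * y ^ C) * (1 / 2) ^ m))) := by
        gcongr
    _ = UU T * ((c3 * y) * Real.exp (c4 * y ^ C) * (1 / 2) ^ m) := by
        rw [hc3]
        ring
    _ ≤ UU T * (Real.exp (c3 * y) * Real.exp (c4 * y ^ C) * (1 / 2) ^ m) := by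
        have := TS.le_exp' (c3 * y)
        gcongr
    _ ≤ UU T * (Real.exp (D * y ^ D) * (1 / 2) ^ m) := by
        rw [← Real.exp_add]
        have := hexp (c3 * y + c4 * y ^ C) (by nlinarith)
        gcongr

theorem bMass : BMass := by
  obtain ⟨K0, M, h2, hM, h⟩ := bcode
  refine ⟨M, by omega, fun S hS => (h S hS).trans ?_⟩
  apply Finset.sum_le_sum_of_subset
  intro j hj
  rw [Finset.mem_Icc] at hj ⊢
  exact ⟨hj.1, hj.2.trans (Nat.mul_le_mul_right S hM)⟩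

theorem star_lev2' (h1 : Star lev) : Star lev2 := star_lev2 h1 bMass

end TD

end HexObs
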