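import Pool.Agent.TightD.Cat
import Pool.Agent.TightS.DefsS
import Pool.Agent.PHW.Rotate

/-!
TIGHT, direction 2: prefix codes.
-/

set_option autoImplicit false

namespace HexObs

namespace TD

open Finset

open scoped ENNReal

/-- reversed triangle words, sizes in [R, R + n) -/
def US (R n : ℕ) : Set (List Bool) := {u | ∃ r z, 1 ≤ r ∧ R ≤ r ∧ r < R + n ∧ z ∈ Tri r ∧ u = rev z}

/-- the reversed triangle words without a proper shorter one -/
def T1 (R n : ℕ) : Set (List Bool) := {u | u ∈ US R n ∧ ∀ u' ∈ US R n, ∀ d ∈ TS.BU, u = u' ++ d → d = []}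

/-- coordinate in the direction rotL up -/
lemma ip_rotL_rotL (p : Pt) : ip (rotL p) (rotL up) = ip p up := by
  unfold ip rotL up
  ring

lemma lev_nil_end {r : ℕ} {z : List Bool} (hz : TriP r z) : lev z 1 = 2 := by
  have : vx oo up z 1 = up := by
    show oo + up = up
    decide
  unfold lev
  rw [this]
  decide

/-- if two reversed triangle words differ by d, then d goes up -/
lemma diff_dir {r1 r2 : ℕ} {z1 z2 d : List Bool} (h1 : TriP r1 z1) (h2 : TriP r2 z2) (h : rev z2 = rev z1 ++ d) :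
    dx up d d.length = up ∧ ∀ j, j ≤ d.length → lev d j ≤ lev d d.length ∧ lev d d.length ≤ lev d j + 6 * r2 := by
  have e1 := dx_revT h1.dir
  have e2 := dx_revT h2.dir
  have hl : (rev z2).length = (rev z1).length + d.length := by rw [h, List.length_append]
  constructor
  · have h3 := dx_catL (t := d) e1 d.length
    rw [← h, ← hl, e2] at h3
    unfold rotL at h3
    simp only [Prod.mk.injEq] at h3
    exact Prod.ext (by omega) (by omega)
  · intro j hj
    have key : ∀ j, j ≤ d.length → ip (vx oo up (rev z2) ((rev z1).length + j)) (rotL up) =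
        ip (vx oo up (rev z1) (rev z1).length) (rotL up) + lev d j := by
      intro j _
      rw [h, vx_catL e1 j, ip_add_left, ip_rotL_rotL]
      rfl
    have key2 : ∀ i, i ≤ z2.length → ip (vx oo up (rev z2) i) (rotL up) =
        lev z2 (z2.length + 1) - lev z2 (z2.length + 1 - i) := by
      intro i hi
      rw [vx_revT h2.dir (by omega), ip_rotL_rotL, ip_sub_left]
      rfl
    rw [rev_length] at hl
    have k1 := key j hj
    have k2 := key d.length le_rfl
    rw [key2 _ (by omega)] at k1 k2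
    have hlen1 := h1.len
    have e3 : z2.length + 1 - ((rev z1).length + d.length) = 1 := by omega
    rw [e3, lev_nil_end h2] at k2
    rw [rev_length] at k1 k2 hl e3
    have a1 : 2 ≤ lev z2 (z2.length + 1 - (z1.length + j)) := h2.pos _ (by omega) (by omega)
    have a2 : lev z2 (z2.length + 1 - (z1.length + j)) ≤ 6 * r2 + 1 := h2.top _ (by omega) (by omega)
    constructor <;> omega

lemma even_of_dir {d : List Bool} (h : dx up d d.length = up) : Even d.length := by
  have h1 := cl_dx up d d.length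
  rw [h] at h1
  by_contra hc
  rw [if_neg hc] at h1
  revert h1
  decide

/-- the word between two cuts is a bridge -/
lemma diff_Brd {d w : List Bool} (h1 : dx up d d.length = up) (h2 : ∀ j, j ≤ d.length → lev d j ≤ lev d d.length)
    (hw : Upw (d ++ w)) : ∃ h : ℕ, d ∈ Brd h := by
  have h3 := lev_mod d d.length
  rw [if_pos (even_of_dir h1), sub_zero] at h3
  have h0 : 0 ≤ lev d d.length := by
    have := h2 0 (Nat.zero_le _)
    rwa [lev_zero] at this
  obtain ⟨c, hc⟩ := h3
  obtain ⟨h, rfl⟩ : ∃ h : ℕ, c = h := ⟨c.toNat, by omega⟩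
  refine ⟨h, ?_⟩
  rw [mem_Brd]
  refine ⟨?_, ?_, h1, hc⟩
  · intro i hi hl
    have h4 := hw.pos i hi (by rw [List.length_append]; omega)
    rw [lev_append (by omega)] at h4
    have h5 := h2 i hl
    exact ⟨h4, by omega⟩
  · intro i k hik hk heq
    apply hw.inj i k hik (by rw [List.length_append]; omega)
    rw [vx_append (by omega), vx_append (by omega)]
    exact heq

lemma US_TriP {R n : ℕ} {u : List Bool} (h : u ∈ US R n) : ∃ r z, r < R + n ∧ TriP r z ∧ u = rev z := by
  obtain ⟨r, z, h0, _, h2, h3, h4⟩ := h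
  exact ⟨r, z, h2, tri_props h0 h3, h4⟩

/-- the first part is determined -/
theorem code_fst {R n : ℕ} {u1 u2 w1 w2 : List Bool} (h1 : u1 ∈ T1 R n) (h2 : u2 ∈ T1 R n) (hw1 : Upw w1) (hw2 : Upw w2)
    (h : u1 ++ w1 = u2 ++ w2) : u1 = u2 ∧ w1 = w2 := by
  have key : ∀ {u1 u2 w1 w2 d : List Bool}, u1 ∈ T1 R n → u2 ∈ T1 R n → Upw w1 → u2 = u1 ++ d → w1 = d ++ w2 → d = [] := by
    intro u1 u2 w1 w2 d h1 h2 hw1 e1 e2
    obtain ⟨r1, z1, _, hz1, hu1⟩ := US_TriP h1.1
    obtain ⟨r2, z2, _, hz2, hu2⟩ := US_TriP h2.1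
    have h3 := diff_dir hz1 hz2 (by rw [← hu1, ← hu2]; exact e1)
    rw [e2] at hw1
    exact h2.2 u1 h1.1 d (diff_Brd h3.1 (fun j hj => (h3.2 j hj).1) hw1) e1
  rcases List.append_eq_append_iff.1 h with ⟨d, e1, e2⟩ | ⟨d, e1, e2⟩
  · have := key h1 h2 hw1 e1 e2
    subst this
    simp only [List.append_nil] at e1
    simp only [List.nil_append] at e2
    exact ⟨e1.symm, e2⟩
  · have := key h2 h1 hw2 e1 e2
    subst this
    simp only [List.append_nil] at e1
    simp only [List.nil_append] at e2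
    exact ⟨e1, e2.symm⟩

lemma rev_append' (s t : List Bool) : rev (s ++ t) = rev t ++ rev s := by
  unfold rev
  rw [List.map_append, List.reverse_append]

/-- the last part is determined -/
theorem code_snd {R n a b : ℕ} {v1 v2 z1 z2 : List Bool} (h1 : rev z1 ∈ T1 R n) (h2 : rev z2 ∈ T1 R n) (hv1 : v1 ∈ Brd a)
    (hv2 : v2 ∈ Brd b) (h : v1 ++ z1 = v2 ++ z2) : v1 = v2 ∧ z1 = z2 := by
  have key : ∀ {a b : ℕ} {v1 v2 z1 z2 d : List Bool}, rev z1 ∈ T1 R n → rev z2 ∈ T1 R n → v1 ∈ Brd a → v2 ∈ Brd b →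
      v2 = v1 ++ d → z1 = d ++ z2 → d = [] := by
    intro a b v1 v2 z1 z2 d h1 h2 hv1 hv2 e1 e2
    obtain ⟨r1, z1', _, hz1, hu1⟩ := US_TriP h1.1
    have hzz : z1' = z1 := by
      rw [← rev_rev z1, hu1, rev_rev]
    rw [hzz] at hz1
    have hup := upw_tri hz1
    rw [e2] at hup
    have hv2' := hv2
    rw [e1] at hv2'
    have h3 := (Brd_cancel hv1 hv2' (by
      intro j j1 j2
      rw [lev_cat (mem_Brd.1 hv1).2.2.1, (mem_Brd.1 hv1).2.2.2]
      have := hup.pos j j1 (by rw [List.length_append]; omega)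
      rw [lev_append (by omega)] at this
      omega)).2
    have h4 : rev z1 = rev z2 ++ rev d := by
      rw [e2, rev_append']
    have h5 := h1.2 (rev z2) h2.1 (rev d) ⟨_, Brd_rev h3⟩ h4
    rw [← rev_rev d, h5]
    rfl
  rcases List.append_eq_append_iff.1 h with ⟨d, e1, e2⟩ | ⟨d, e1, e2⟩
  · have := key h1 h2 hv1 hv2 e1 e2
    subst this
    simp only [List.append_nil] at e1
    simp only [List.nil_append] at e2
    exact ⟨e1.symm, e2⟩
  · have := key h2 h1 hv2 hv1 e1 e2
    subst this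
    simp only [List.append_nil] at e1
    simp only [List.nil_append] at e2
    exact ⟨e1, e2.symm⟩

lemma BU_append {s t : List Bool} (hs : s ∈ TS.BU) (ht : t ∈ TS.BU) : s ++ t ∈ TS.BU := by
  obtain ⟨a, ha⟩ := hs
  obtain ⟨b, hb⟩ := ht
  exact ⟨a + b, Brd_append ha hb⟩

/-- every reversed triangle word starts with a code word -/
lemma US_dec {R n : ℕ} {u : List Bool} (h : u ∈ US R n) :
    ∃ u' ∈ T1 R n, ∃ d ∈ {d | ∃ h, h ≤ 2 * (R + n) ∧ d ∈ Brd h}, u = u' ++ d := by
  have key : ∀ m (u : List Bool), u.length = m → u ∈ US R n → ∃ u' ∈ T1 R n, ∃ d ∈ TS.BU, u = u' ++ d := by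
    intro m
    induction m using Nat.strong_induction_on with
    | _ m ih =>
      intro u hm hu
      by_cases hT : u ∈ T1 R n
      · exact ⟨u, hT, [], ⟨0, nil_mem_Brd⟩, (List.append_nil u).symm⟩
      · have hT' : ¬ ∀ u' ∈ US R n, ∀ d ∈ TS.BU, u = u' ++ d → d = [] := fun hc => hT ⟨hu, hc⟩
        push Not at hT'
        obtain ⟨u', hu', d, hd, e1, e2⟩ := hT'
        have hlt : u'.length < m := by
          rw [← hm, e1, List.length_append]
          have : 0 < d.length := List.length_pos_iff.2 e2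
          omega
        obtain ⟨u'', h1, d', h2, h3⟩ := ih u'.length hlt u' rfl hu'
        refine ⟨u'', h1, d' ++ d, BU_append h2 hd, ?_⟩
        rw [e1, h3, List.append_assoc]
  obtain ⟨u', h1, d, ⟨k, hk⟩, h3⟩ := key u.length u rfl h
  refine ⟨u', h1, d, ⟨k, ?_, hk⟩, h3⟩
  obtain ⟨r1, z1, _, hz1, hu1⟩ := US_TriP h1.1
  obtain ⟨r2, z2, hr2, hz2, hu2⟩ := US_TriP h
  have h4 := (diff_dir hz1 hz2 (by rw [← hu1, ← hu2]; exact h3)).2 0 (Nat.zero_le _)
  rw [lev_zero, (mem_Brd.1 hk).2.2.2] at h4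
  omega

/-- total weight of the bounded bridges -/
lemma gf_bd (N : ℕ) : gf {d | ∃ h, h ≤ N ∧ d ∈ Brd h} ≤ ENNReal.ofReal (UU N) := by
  have h1 : {d | ∃ h, h ≤ N ∧ d ∈ Brd h} ⊆ ⋃ h ∈ range (N + 1), Brd h := by
    rintro d ⟨h, h1, h2⟩
    simp only [Set.mem_iUnion]
    exact ⟨h, Finset.mem_range.2 (by omega), h2⟩
  refine (gf_mono h1).trans ((ENNReal.tsum_biUnion_le wE _ _).trans ?_)
  have h2 : ∀ h ∈ range (N + 1), ∑' t : Brd h, wE t = ENNReal.ofReal (uu h) := by
    intro h _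
    have : gf (Brd h) = ENNReal.ofReal (uu h) := by
      rw [gf_Brd]
      unfold uu
      rw [ENNReal.ofReal_toReal]
      rcases Nat.eq_zero_or_pos h with h0 | h0
      · rw [h0, ← gf_Brd, Brd_zero]
        unfold gf
        rw [tsum_singleton (f := wE)]
        unfold wE
        simp
      · exact BT_ne_top h0
    exact this
  rw [Finset.sum_congr rfl h2]
  have h3 := ENNReal.ofReal_sum_of_nonneg (s := range (N + 1)) (f := uu) (fun i _ => (ENNReal.toReal_nonneg : 0 ≤ uu i))
  rw [← h3]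
  exact le_rfl

theorem gf_T1 (R n : ℕ) (hR : 1 ≤ R) :
    ∑ r ∈ Finset.Ico R (R + n), gf (Tri r) ≤ gf (T1 R n) * ENNReal.ofReal (UU (2 * (R + n))) := by
  have h1 : gf (US R n) ≤ gf (T1 R n) * gf {d | ∃ h, h ≤ 2 * (R + n) ∧ d ∈ Brd h} := gf_le_mul fun u hu => US_dec hu
  refine le_trans ?_ (h1.trans (mul_le_mul_right (gf_bd _) _))
  have hdisj : ∀ i ∈ Finset.Ico R (R + n), ∀ j ∈ Finset.Ico R (R + n), i ≠ j → Disjoint (Tri i) (Tri j) := by
    intro i hi j hj hij
    rw [Finset.mem_Ico] at hi hj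
    rw [Set.disjoint_left]
    intro z hz hz'
    have h1 := (tri_props (by omega) hz).tip2
    have h2 := (tri_props (by omega) hz').tip2
    omega
  rw [← gf_biUnion _ _ hdisj]
  have hsub : ∀ z ∈ ⋃ r ∈ Finset.Ico R (R + n), Tri r, rev z ∈ US R n := by
    intro z hz
    simp only [Set.mem_iUnion] at hz
    obtain ⟨r, hr, hz⟩ := hz
    rw [Finset.mem_Ico] at hr
    exact ⟨r, z, by omega, hr.1, hr.2, hz, rfl⟩
  unfold gf
  let ψ : (⋃ r ∈ Finset.Ico R (R + n), Tri r : Set (List Bool)) → US R n := fun z => ⟨rev z.1, hsub z.1 z.2⟩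
  have hψ : Function.Injective ψ := by
    intro a b hab
    have h1 : rev a.1 = rev b.1 := congrArg Subtype.val hab
    apply Subtype.ext
    rw [← rev_rev a.1, h1, rev_rev]
  calc ∑' z : (⋃ r ∈ Finset.Ico R (R + n), Tri r : Set (List Bool)), wE z =
      ∑' z : (⋃ r ∈ Finset.Ico R (R + n), Tri r : Set (List Bool)), wE (ψ z) := by
        refine tsum_congr fun z => ?_
        show wE z.1 = wE (rev z.1)
        rw [wE_rev]
    _ ≤ ∑' u : US R n, wE u := ENNReal.tsum_comp_le_tsum_of_injective hψ (fun u : US R n => wE u)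

end TD

end HexObs
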