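import Pool.Agent.TightD.Tri

/-!
TIGHT, direction 2: the concatenation rev z1 ++ (v ++ z2) is a bridge.
-/

set_option autoImplicit false

namespace HexObs

namespace TD

open Finset

open scoped ENNReal

/-- all later vertices are above the start -/
structure Upw (w : List Bool) : Prop where
  pos : ∀ i, 1 ≤ i → i ≤ w.length → 0 < lev w i
  inj : ∀ i k, i < k → k ≤ w.length → vx oo up w i ≠ vx oo up w k

lemma lev2_mod (t : List Bool) (i : ℕ) : ∃ q : ℤ, lev2 t i = 3 * q ∨ lev2 t i = 3 * q + 1 := by
  have h1 := lev2_eq t i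
  have h2 := lev_mod t i
  split_ifs at h2
  · obtain ⟨c, hc⟩ := h2
    refine ⟨lev2 t i / 3, Or.inl ?_⟩
    omega
  · obtain ⟨c, hc⟩ := h2
    refine ⟨(lev2 t i - 1) / 3, Or.inr ?_⟩
    omega

lemma ip_rotL (p : Pt) : ip (rotL p) up = 2 * p.1 + p.2 := by
  unfold ip rotL up
  ring

/-- the cut between an upper half plane word and a bridge -/
lemma upw_cat {T : ℕ} {v w : List Bool} (hv : v ∈ Brd T) (hw : Upw w) : Upw (v ++ w) := by
  rw [mem_Brd] at hv
  obtain ⟨s1, s2, s3, s4⟩ := hv
  have key : ∀ i, i ≤ (v ++ w).length → ¬ i ≤ v.length → ∃ j, 1 ≤ j ∧ j ≤ w.length ∧ i = v.length + j := by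
    intro i h1 h2
    rw [List.length_append] at h1
    exact ⟨i - v.length, by omega, by omega, by omega⟩
  constructor
  · intro i hi hl
    by_cases h : i ≤ v.length
    · rw [lev_append (by omega)]
      exact (s1 i hi h).1
    · obtain ⟨j, j1, j2, rfl⟩ := key i hl h
      rw [lev_cat s3, s4]
      have := hw.pos j j1 j2
      omega
  · intro i k hik hk heq
    by_cases h : k ≤ v.length
    · rw [vx_append (by omega), vx_append (by omega)] at heq
      exact s2 i k hik h heq
    · obtain ⟨j, j1, j2, rfl⟩ := key k hk h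
      by_cases h' : i ≤ v.length
      · have h5 := congrArg (fun p => ip p up) heq
        have h6 : lev (v ++ w) i = lev (v ++ w) (v.length + j) := h5
        rw [lev_cat s3, s4, lev_append (by omega)] at h6
        have h7 := hw.pos j j1 j2
        rcases Nat.eq_zero_or_pos i with hi | hi
        · rw [hi, lev_zero] at h6
          omega
        · have := (s1 i hi h').2
          omega
      · obtain ⟨j', j1', j2', rfl⟩ := key i (by omega) h'
        rw [vx_cat s3, vx_cat s3] at heq
        exact hw.inj j' j (by omega) j2 (add_left_cancel heq)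

lemma upw_tri {r : ℕ} {z : List Bool} (hz : TriP r z) : Upw z :=
  ⟨fun i h1 h2 => by have := hz.pos i h1 h2; omega, hz.inj⟩

/-- vertices of the first part -/
lemma vx_fst {r : ℕ} {z w : List Bool} (hz : TriP r z) {i : ℕ} (hi : i ≤ z.length) :
    vx oo up (rev z ++ w) i = rotL (vx oo up z (z.length + 1) - vx oo up z (z.length + 1 - i)) := by
  rw [vx_append (by rw [rev_length]; omega), vx_revT hz.dir (by omega)]

/-- vertices of the second part -/
lemma vx_snd {r : ℕ} {z w : List Bool} (hz : TriP r z) (j : ℕ) :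
    vx oo up (rev z ++ w) (z.length + j) = rotL (vx oo up z (z.length + 1) - up + vx oo up w j) := by
  have h1 := vx_catL (t := w) (dx_revT hz.dir) j
  rw [rev_length] at h1
  rw [h1, vx_revT hz.dir (by omega), Nat.add_sub_cancel_left]
  have e : vx oo up z 1 = up := by
    show oo + up = up
    decide
  rw [e]
  obtain ⟨⟨a, b⟩, hv⟩ : ∃ q : Pt, vx oo up w j = q := ⟨_, rfl⟩
  obtain ⟨⟨c, d⟩, hw⟩ : ∃ q : Pt, vx oo up z (z.length + 1) = q := ⟨_, rfl⟩
  rw [hv, hw]
  unfold rotL up
  simp only [Prod.mk_sub_mk, Prod.mk_add_mk, Prod.mk.injEq]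
  constructor <;> ring

lemma lev_fst {r : ℕ} {z w : List Bool} (hz : TriP r z) {i : ℕ} (hi : i ≤ z.length) :
    lev (rev z ++ w) i = 3 * r - lev2 z (z.length + 1 - i) := by
  unfold lev
  rw [vx_fst hz hi, ip_rotL]
  have h1 := hz.tip2
  rw [lev2_eq'] at h1
  rw [lev2_eq' z (z.length + 1 - i)]
  simp only [Prod.fst_sub, Prod.snd_sub]
  linarith

lemma lev_snd {r : ℕ} {z w : List Bool} (hz : TriP r z) (j : ℕ) :
    lev (rev z ++ w) (z.length + j) = 3 * r - 1 + lev2 w j := by
  unfold lev
  rw [vx_snd hz j, ip_rotL]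
  have h1 := hz.tip2
  rw [lev2_eq'] at h1
  rw [lev2_eq' w j]
  have e3 : up.1 = 0 ∧ up.2 = 1 := ⟨rfl, rfl⟩
  simp only [Prod.fst_sub, Prod.snd_sub, Prod.fst_add, Prod.snd_add]
  rw [e3.1, e3.2]
  linarith

lemma lev2_cat {s t : List Bool} (hs : dx up s s.length = up) (j : ℕ) :
    lev2 (s ++ t) (s.length + j) = lev2 s s.length + lev2 t j := by
  unfold lev2
  rw [vx_cat hs, ip_add_left]

lemma lev2_append {s t : List Bool} {i : ℕ} (h : i ≤ s.length + 1) : lev2 (s ++ t) i = lev2 s i := by
  unfold lev2
  rw [vx_append h]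

/-- the concatenation is a bridge -/
theorem cat_Brd {r1 r2 T : ℕ} {E : ℤ} {z1 v z2 : List Bool} (h1 : TriP r1 z1) (hv : v ∈ Brd T) (h2 : TriP r2 z2)
    (hE : lev2 v v.length = 3 * E) (hlow : ∀ i, i ≤ v.length → -(3 * (r1 : ℤ)) + 1 < lev2 v i)
    (hup : ∀ i, i ≤ v.length → lev2 v i + 2 ≤ 3 * E + 3 * r2) (ha : (r1 : ℤ) ≤ E + r2) (hb : (r2 : ℤ) ≤ E + r1) :
    ∃ H : ℕ, (H : ℤ) = E + r1 + r2 - 1 ∧ rev z1 ++ (v ++ z2) ∈ Brd H := by
  have hv' := hv
  rw [mem_Brd] at hv'
  obtain ⟨s1, s2, s3, s4⟩ := hv'
  have hr1 : 1 ≤ r1 := by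
    have a1 := h1.rt z1.length h1.len le_rfl
    have a2 := h1.lt z1.length h1.len le_rfl
    have a3 := h1.pos z1.length h1.len le_rfl
    omega
  have hr2 : 1 ≤ r2 := by
    have a1 := h2.rt z2.length h2.len le_rfl
    have a2 := h2.lt z2.length h2.len le_rfl
    have a3 := h2.pos z2.length h2.len le_rfl
    omega
  have hH0 : 0 ≤ E + r1 + r2 - 1 := by
    have := hlow v.length le_rfl
    have := hup 0 (Nat.zero_le _)
    have e0 : lev2 v 0 = 0 := by
      rw [lev2_eq']
      rfl
    omega
  obtain ⟨H, hH⟩ : ∃ H : ℕ, (H : ℤ) = E + r1 + r2 - 1 := ⟨(E + r1 + r2 - 1).toNat, Int.toNat_of_nonneg hH0⟩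
  refine ⟨H, hH, ?_⟩
  have hupw : Upw (v ++ z2) := upw_cat hv (upw_tri h2)
  have hlen : (rev z1 ++ (v ++ z2)).length = z1.length + (v.length + z2.length) := by
    rw [List.length_append, List.length_append, rev_length]
  -- the levels of the second part
  have hlev : ∀ j, j ≤ v.length + z2.length → 1 ≤ 3 * (r1 : ℤ) - 1 + lev2 (v ++ z2) j ∧
      3 * (r1 : ℤ) - 1 + lev2 (v ++ z2) j ≤ 3 * H := by
    intro j hj
    by_cases h : j ≤ v.length
    · rw [lev2_append (by omega)]
      have a1 := hlow j h
      have a2 := hup j h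
      constructor <;> omega
    · obtain ⟨k, rfl⟩ : ∃ k, j = v.length + k := ⟨j - v.length, by omega⟩
      rw [lev2_cat s3, hE]
      have a1 := h2.rt k (by omega) (by omega)
      have a2 := h2.lt k (by omega) (by omega)
      have a3 := h2.pos k (by omega) (by omega)
      obtain ⟨q, hq⟩ := lev2_mod z2 k
      constructor <;> omega
  rw [mem_Brd]
  refine ⟨?_, ?_, ?_, ?_⟩
  · intro i hi hl
    rw [hlen] at hl
    by_cases h : i ≤ z1.length
    · rw [lev_fst h1 h]
      have a1 := h1.rt (z1.length + 1 - i) (by omega) (by omega)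
      have a2 := h1.lt (z1.length + 1 - i) (by omega) (by omega)
      have a3 := h1.pos (z1.length + 1 - i) (by omega) (by omega)
      obtain ⟨q, hq⟩ := lev2_mod z1 (z1.length + 1 - i)
      constructor <;> omega
    · obtain ⟨j, rfl⟩ : ∃ j, i = z1.length + j := ⟨i - z1.length, by omega⟩
      rw [lev_snd h1]
      have := hlev j (by omega)
      constructor
      · omega
      · exact this.2
  · intro i k hik hk heq
    rw [hlen] at hk
    have hrot : ∀ p q : Pt, rotL p = rotL q → p = q := by
      intro p q h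
      unfold rotL at h
      simp only [Prod.mk.injEq] at h
      exact Prod.ext (by omega) (by omega)
    by_cases h : k ≤ z1.length
    · rw [vx_fst h1 (by omega), vx_fst h1 h] at heq
      have h5 := hrot _ _ heq
      have h6 : vx oo up z1 (z1.length + 1 - i) = vx oo up z1 (z1.length + 1 - k) := by
        have := congrArg (fun p => vx oo up z1 (z1.length + 1) - p) h5
        simpa using this
      rcases Nat.eq_zero_or_pos i with hi | hi
      · rw [hi, Nat.sub_zero] at h6
        have h7 := congrArg (fun p => ip p (rotR up)) h6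
        have h8 : lev2 z1 (z1.length + 1) = lev2 z1 (z1.length + 1 - k) := h7
        rw [h1.tip2] at h8
        have := h1.rt (z1.length + 1 - k) (by omega) (by omega)
        omega
      · exact h1.inj (z1.length + 1 - k) (z1.length + 1 - i) (by omega) (by omega) h6.symm
    · obtain ⟨j, rfl⟩ : ∃ j, k = z1.length + j := ⟨k - z1.length, by omega⟩
      by_cases h' : i ≤ z1.length
      · rw [vx_fst h1 h', vx_snd h1] at heq
        have h5 := hrot _ _ heq
        have h6 := congrArg (fun p : Pt => p.1 + 2 * p.2) h5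
        simp only [Prod.fst_sub, Prod.snd_sub, Prod.fst_add, Prod.snd_add] at h6
        have e1 := lev_eq' z1 (z1.length + 1 - i)
        have e2 := lev_eq' (v ++ z2) j
        have a1 := hupw.pos j (by omega) (by rw [List.length_append]; omega)
        have a2 : 2 ≤ lev z1 (z1.length + 1 - i) := by
          rcases Nat.eq_zero_or_pos i with hi | hi
          · rw [hi, Nat.sub_zero]
            exact h1.tip1
          · exact h1.pos _ (by omega) (by omega)
        have e3 : up.1 = 0 ∧ up.2 = 1 := ⟨rfl, rfl⟩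
        rw [e3.1, e3.2] at h6
        omega
      · obtain ⟨j', rfl⟩ : ∃ j', i = z1.length + j' := ⟨i - z1.length, by omega⟩
        rw [vx_snd h1, vx_snd h1] at heq
        have h5 := add_left_cancel (hrot _ _ heq)
        exact hupw.inj j' j (by omega) (by rw [List.length_append]; omega) h5
  · have h5 := dx_catL (t := v ++ z2) (dx_revT h1.dir) (v.length + z2.length)
    rw [rev_length] at h5
    rw [hlen, h5, dx_cat s3, h2.dir]
    decide
  · rw [hlen, lev_snd h1, lev2_cat s3, hE]
    have h5 : lev2 z2 z2.length = 3 * r2 - 2 := by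
      have h6 := h2.tip2
      have h7 : vx oo up z2 (z2.length + 1) = vx oo up z2 z2.length + dx up z2 z2.length := rfl
      unfold lev2 at h6 ⊢
      rw [h7, h2.dir, ip_add_left] at h6
      have : ip (rotR up) (rotR up) = 2 := by decide
      omega
    rw [h5]
    omega

/-- the box of the concatenation -/
theorem cat_box {r1 r2 T B : ℕ} {z1 v z2 : List Bool} (h1 : TriP r1 z1) (hv : v ∈ Brd T) (h2 : TriP r2 z2)
    (hB : InBox v B) : InBox (rev z1 ++ (v ++ z2)) (10 * r1 + 5 * r2 + 3 * T + B + 2) := by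
  have hv' := hv
  rw [mem_Brd] at hv'
  obtain ⟨s1, s2, s3, s4⟩ := hv'
  have b1 : ∀ {r : ℕ} {z : List Bool}, TriP r z → ∀ i, i ≤ z.length + 1 → |(vx oo up z i).2| ≤ 5 * r := by
    intro r z hz i hi
    have e1 := lev_eq' z i
    have e2 := lev2_eq' z i
    rw [abs_le]
    rcases Nat.eq_zero_or_pos i with h | h
    · rw [h]
      have : vx oo up z 0 = oo := rfl
      rw [this]
      show -(5 * (r : ℤ)) ≤ 0 ∧ (0 : ℤ) ≤ 5 * r
      constructor <;> omega
    · by_cases h' : i ≤ z.length
      · have a1 := hz.rt i h h'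
        have a2 := hz.lt i h h'
        have a3 := hz.pos i h h'
        have a4 := hz.top i h h'
        constructor <;> omega
      · have : i = z.length + 1 := by omega
        subst this
        have a1 := hz.tip1
        have a2 := hz.tip2
        have a3 := hz.tip3
        constructor <;> omega
  have hvb : ∀ i, i ≤ v.length → |(vx oo up v i).2| ≤ 3 * T + B := by
    intro i hi
    have e1 := lev_eq' v i
    have e2 := lat_eq' v i
    have a1 := hB i hi
    rw [abs_le] at a1 ⊢
    rcases Nat.eq_zero_or_pos i with h | h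
    · rw [h]
      have : vx oo up v 0 = oo := rfl
      rw [this]
      show -(3 * (T : ℤ) + B) ≤ 0 ∧ (0 : ℤ) ≤ 3 * T + B
      constructor <;> omega
    · have a2 := s1 i h hi
      constructor <;> omega
  have hlen : (rev z1 ++ (v ++ z2)).length = z1.length + (v.length + z2.length) := by
    rw [List.length_append, List.length_append, rev_length]
  intro i hi
  rw [hlen] at hi
  rw [lat_eq', abs_le]
  push_cast
  have ht := b1 h1 (z1.length + 1) le_rfl
  rw [abs_le] at ht
  by_cases h : i ≤ z1.length
  · rw [vx_fst h1 h]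
    have h5 := b1 h1 (z1.length + 1 - i) (by omega)
    rw [abs_le] at h5
    unfold rotL
    simp only [Prod.snd_sub]
    constructor <;> omega
  · obtain ⟨j, rfl⟩ : ∃ j, i = z1.length + j := ⟨i - z1.length, by omega⟩
    rw [vx_snd h1]
    have h6 : |(vx oo up (v ++ z2) j).2| ≤ 5 * r2 + 3 * T + B := by
      by_cases h' : j ≤ v.length
      · rw [vx_append (by omega)]
        have := hvb j h'
        omega
      · obtain ⟨k, rfl⟩ : ∃ k, j = v.length + k := ⟨j - v.length, by omega⟩
        rw [vx_cat s3, Prod.snd_add]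
        have a1 := hvb v.length le_rfl
        have a2 := b1 h2 k (by omega)
        rw [abs_le] at a1 a2 ⊢
        constructor <;> omega
    rw [abs_le] at h6
    unfold rotL
    simp only [Prod.snd_sub, Prod.snd_add]
    have e3 : up.2 = 1 := rfl
    rw [e3]
    constructor <;> omega

end TD

end HexObs
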