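import Pool.Agent.TightD.Embed

/-!
TIGHT, direction 2: Star lev2 from Star lev.
-/

set_option autoImplicit false

namespace HexObs

namespace TD

open Finset

open scoped ENNReal

/-- the long bridges with the alternations -/
def HH (W d nk m H : ℕ) : Set (List Bool) :=
  {h | h ∈ Brd H ∧ InBox h W ∧ ∃ k, k ≤ nk ∧ Tight.Alt (lev h) h.length ((k : ℤ) * d) (((k : ℤ) + 1) * d) m}

/-- the embedding -/
theorem embed {N K0 Q m nk d W : ℕ} {a b : ℤ} (hN : 1 ≤ N) (hm : 1 ≤ m) (hd : 1 ≤ d)
    (hQ : 4 + 27 * K0 ≤ Q) (hW : (20 * Q + 20) * N ≤ W) (hdab : (2 * d : ℤ) ≤ b - a ∨ (d = 1 ∧ b = a + 1))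
    (hnk : 3 * W ≤ nk * d) :
    gf (T1 (Q * N) N) * ((∑ T' ∈ range (N + 1), gf {g | g ∈ Brd T' ∧ InBox g N ∧ Tight.Alt (lev2 g) g.length a b m}) *
      gf (CB K0 (3 * N)) * gf (T1 (Q * N) N)) ≤ ∑ H ∈ range (W + 1), gf (HH W d nk m H) := by
  obtain ⟨G, hG⟩ : ∃ G : Set (List Bool), G = {g | ∃ T', T' ≤ N ∧ g ∈ Brd T' ∧ InBox g N ∧
    Tight.Alt (lev2 g) g.length a b m} := ⟨_, rfl⟩
  obtain ⟨V, hV⟩ : ∃ V : Set (List Bool), V = {v | ∃ g ∈ G, ∃ B ∈ CB K0 (3 * N), v = g ++ B} := ⟨_, rfl⟩
  obtain ⟨X, hX⟩ : ∃ X : Set (List Bool), X = {x | ∃ v ∈ V, ∃ z, rev z ∈ T1 (Q * N) N ∧ x = v ++ z} := ⟨_, rfl⟩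
  obtain ⟨Y, hY⟩ : ∃ Y : Set (List Bool), Y = {y | ∃ u ∈ T1 (Q * N) N, ∃ x ∈ X, y = u ++ x} := ⟨_, rfl⟩
  -- bridges
  have hVB : ∀ v ∈ V, ∃ t, v ∈ Brd t := by
    intro v hv
    rw [hV] at hv
    obtain ⟨g, hg, B, hB, rfl⟩ := hv
    rw [hG] at hg
    obtain ⟨T', h1, h2, h3, h4⟩ := hg
    obtain ⟨t, _, h5, _⟩ := mid_bounds hN h1 h2 h3 hB
    exact ⟨t, h5⟩
  have hXU : ∀ x ∈ X, Upw x := by
    intro x hx
    rw [hX] at hx
    obtain ⟨v, hv, z, hz, rfl⟩ := hx
    obtain ⟨t, ht⟩ := hVB v hv
    obtain ⟨r, z', _, hz', hu⟩ := US_TriP hz.1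
    have : z' = z := by rw [← rev_rev z, hu, rev_rev]
    rw [this] at hz'
    exact upw_cat ht (upw_tri hz')
  -- masses
  have m1 : (∑ T' ∈ range (N + 1), gf {g | g ∈ Brd T' ∧ InBox g N ∧ Tight.Alt (lev2 g) g.length a b m}) ≤ gf G := by
    have hdisj : ∀ i ∈ range (N + 1), ∀ j ∈ range (N + 1), i ≠ j →
        Disjoint {g | g ∈ Brd i ∧ InBox g N ∧ Tight.Alt (lev2 g) g.length a b m}
          {g | g ∈ Brd j ∧ InBox g N ∧ Tight.Alt (lev2 g) g.length a b m} := by
      intro i _ j _ hij
      rw [Set.disjoint_left]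
      intro t h1 h2
      exact hij (Brd_height h1.1 h2.1)
    rw [← gf_biUnion _ _ hdisj]
    apply gf_mono
    intro g hg
    simp only [Set.mem_iUnion] at hg
    obtain ⟨T', h1, h2⟩ := hg
    rw [Finset.mem_range] at h1
    rw [hG]
    exact ⟨T', by omega, h2⟩
  have m2 : gf G * gf (CB K0 (3 * N)) ≤ gf V := by
    apply mul_le_gf
    · intro g hg B hB
      rw [hV]
      exact ⟨g, hg, B, hB, rfl⟩
    · intro g hg B hB g' hg' B' hB' h
      rw [hG] at hg hg'
      obtain ⟨_, _, h2, _⟩ := hg
      obtain ⟨_, _, h2', _⟩ := hg'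
      exact code_mid h2 h2' hB hB' h
  have m3 : gf V * gf {z | rev z ∈ T1 (Q * N) N} ≤ gf X := by
    apply mul_le_gf
    · intro v hv z hz
      rw [hX]
      exact ⟨v, hv, z, hz, rfl⟩
    · intro v hv z hz v' hv' z' hz' h
      obtain ⟨t, ht⟩ := hVB v hv
      obtain ⟨t', ht'⟩ := hVB v' hv'
      exact (code_snd hz hz' ht ht' h).1
  have m4 : gf (T1 (Q * N) N) * gf X ≤ gf Y := by
    apply mul_le_gf
    · intro u hu x hx
      rw [hY]
      exact ⟨u, hu, x, hx, rfl⟩
    · intro u hu x hx u' hu' x' hx' h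
      exact (code_fst hu hu' (hXU x hx) (hXU x' hx') h).1
  rw [gf_rev_eq] at m3
  calc gf (T1 (Q * N) N) * ((∑ T' ∈ range (N + 1), gf {g | g ∈ Brd T' ∧ InBox g N ∧ Tight.Alt (lev2 g) g.length a b m}) *
      gf (CB K0 (3 * N)) * gf (T1 (Q * N) N)) ≤ gf (T1 (Q * N) N) * (gf G * gf (CB K0 (3 * N)) * gf (T1 (Q * N) N)) := by
        gcongr
    _ ≤ gf (T1 (Q * N) N) * (gf V * gf (T1 (Q * N) N)) := by gcongr
    _ ≤ gf (T1 (Q * N) N) * gf X := by gcongr
    _ ≤ gf Y := m4
    _ ≤ gf (⋃ H ∈ range (W + 1), HH W d nk m H) := by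
        apply gf_mono
        intro y hy
        rw [hY] at hy
        obtain ⟨u, hu, x, hx, rfl⟩ := hy
        rw [hX] at hx
        obtain ⟨v, hv, z2, hz2, rfl⟩ := hx
        rw [hV] at hv
        obtain ⟨g, hg, B, hB, rfl⟩ := hv
        rw [hG] at hg
        obtain ⟨T', k1, k2, k3, k4⟩ := hg
        obtain ⟨t, t1, t2, t3, E, t4, t5⟩ := mid_bounds hN k1 k2 k3 hB
        obtain ⟨r2, z2', ⟨q0, q1, q2, q3, q4⟩⟩ := hz2.1
        have hzz : z2' = z2 := by rw [← rev_rev z2, q4, rev_rev]
        rw [hzz] at q3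
        obtain ⟨r1, z1, p0, p1, p2, p3, rfl⟩ := hu.1
        have hz1 := tri_props p0 p3
        have hz2' := tri_props q0 q3
        -- sizes
        have eQ : (4 + 27 * K0) * N ≤ Q * N := Nat.mul_le_mul_right N hQ
        have eQ2 : (4 + 27 * K0) * N = 4 * N + 27 * (K0 * N) := by ring
        have eW : (20 * Q + 20) * N = 20 * (Q * N) + 20 * N := by ring
        have et : (1 + 3 * K0) * N = N + 3 * (K0 * N) := by ring
        have eb : (1 + 6 * K0) * N = N + 6 * (K0 * N) := by ring
        obtain ⟨R, hR⟩ : ∃ R, R = Q * N := ⟨_, rfl⟩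
        obtain ⟨L, hL⟩ : ∃ L, L = K0 * N := ⟨_, rfl⟩
        rw [← hR] at eQ eW p1 p2 q1 q2
        rw [← hL] at eQ2 et eb
        rw [et] at t1
        rw [eb] at t3
        have hlev2 : ∀ i, i ≤ (g ++ B).length → -(3 * (R : ℤ)) + 1 < lev2 (g ++ B) i ∧
            lev2 (g ++ B) i + 2 ≤ 3 * E + 3 * R := by
          intro i hi
          have a1 := lev2_eq (g ++ B) i
          have a2 := t3 i hi
          rw [abs_le] at a2
          push_cast at a2
          have a3 : 0 ≤ lev (g ++ B) i ∧ lev (g ++ B) i ≤ 3 * t := by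
            rcases Nat.eq_zero_or_pos i with h0 | h0
            · rw [h0, lev_zero]
              constructor <;> omega
            · have := (mem_Brd.1 t2).1 i h0 hi
              constructor <;> omega
          constructor <;> omega
        obtain ⟨H, hH, hbr⟩ := cat_Brd hz1 t2 hz2' t5 (fun i hi => by have := (hlev2 i hi).1; omega)
          (fun i hi => by have := (hlev2 i hi).2; omega) (by omega) (by omega)
        have hE2 : 3 * E ≤ 3 * (R : ℤ) * 3 := by
          have a1 := lev2_eq (g ++ B) (g ++ B).length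
          have a2 := t3 _ le_rfl
          rw [abs_le] at a2
          push_cast at a2
          rw [(mem_Brd.1 t2).2.2.2] at a1
          omega
        have hHW : H ≤ W := by omega
        have hboxh := cat_box hz1 t2 hz2' t3
        have hboxW : InBox (rev z1 ++ (g ++ B ++ z2)) W := by
          intro i hi
          refine (hboxh i hi).trans ?_
          exact_mod_cast (by omega : 10 * r1 + 5 * r2 + 3 * t + (N + 6 * L) + 2 ≤ W)
        simp only [Set.mem_iUnion]
        refine ⟨H, Finset.mem_range.2 (by omega), hbr, hboxW, ?_⟩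
        -- the alternations
        obtain ⟨i, i1, i2, i3⟩ := k4
        have hlev : ∀ j, j ≤ g.length → lev (rev z1 ++ (g ++ B ++ z2)) (z1.length + j) = lev2 g j + (3 * r1 - 1) := by
          intro j hj
          rw [lev_snd hz1, lev2_append (by rw [List.length_append]; omega), lev2_append (by omega)]
          ring
        have hik : ∀ k, k ≤ m → i k ≤ g.length := by
          intro k hk
          have hmono : ∀ n, k ≤ n → n ≤ m → i k ≤ i n := by
            intro n hn
            induction n, hn using Nat.le_induction with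
            | base => intro _; exact le_rfl
            | succ n hn ih =>
              intro hn'
              have := ih (by omega)
              have := i1 n (by omega)
              omega
          exact (hmono m hk le_rfl).trans i2
        obtain ⟨s, hs⟩ : ∃ s : ℤ, s = 3 * r1 - 1 := ⟨_, rfl⟩
        rw [← hs] at hlev
        have hd0 : (0 : ℤ) < d := by exact_mod_cast hd
        -- the grid interval
        obtain ⟨k, hk1, hk2⟩ : ∃ k : ℤ, a + s ≤ k * d ∧ (k + 1) * d ≤ b + s := by
          rcases hdab with h2 | ⟨h2, h3⟩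
          · refine ⟨-((-(a + s)) / d), ?_, ?_⟩
            · have := Int.ediv_mul_le (-(a + s)) hd0.ne'
              linarith
            · have := Int.lt_ediv_add_one_mul_self (-(a + s)) hd0
              linarith
          · rw [h2, h3]
            refine ⟨a + s, ?_, ?_⟩
            · push_cast
              linarith
            · push_cast
              linarith
        -- range of k
        have hbrH := (mem_Brd.1 hbr).1
        have hlenh : ∀ j, j ≤ g.length → z1.length + j ≤ (rev z1 ++ (g ++ B ++ z2)).length := by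
          intro j hj
          rw [List.length_append, List.length_append, List.length_append, rev_length]
          omega
        have hlpos := hz1.len
        have c0 := i3 0 (Nat.zero_le _)
        rw [if_pos (by decide)] at c0
        have c1 := i3 1 hm
        rw [if_neg (by decide)] at c1
        have d0 := (hbrH (z1.length + i 0) (by omega) (hlenh _ (hik 0 (Nat.zero_le _)))).1
        have d1 := (hbrH (z1.length + i 1) (by omega) (hlenh _ (hik 1 hm))).2
        rw [hlev _ (hik 0 (Nat.zero_le _))] at d0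
        rw [hlev _ (hik 1 hm)] at d1
        have hk0 : 0 ≤ k := by
          by_contra hneg
          have h9 : k ≤ -1 := by omega
          have h10 : k * d ≤ -1 * d := mul_le_mul_of_nonneg_right h9 hd0.le
          linarith
        have hkn : k ≤ nk := by
          by_contra hneg
          have h9 : (nk : ℤ) + 1 ≤ k := by omega
          have h10 : ((nk : ℤ) + 1) * d ≤ k * d := mul_le_mul_of_nonneg_right h9 hd0.le
          have h11 : (3 * W : ℤ) ≤ nk * d := by exact_mod_cast hnk
          have h12 : (H : ℤ) ≤ W := by exact_mod_cast hHW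
          linarith
        obtain ⟨k', rfl⟩ : ∃ k' : ℕ, k = k' := ⟨k.toNat, by omega⟩
        refine ⟨k', by exact_mod_cast hkn, fun n => z1.length + i n, ?_, ?_, ?_⟩
        · intro n hn
          have := i1 n hn
          show z1.length + i n < z1.length + i (n + 1)
          omega
        · exact hlenh _ (hik m le_rfl)
        · intro n hn
          show if Even n then lev _ (z1.length + i n) ≤ _ else _ ≤ lev _ (z1.length + i n)
          rw [hlev _ (hik n hn)]
          have := i3 n hn
          split_ifs with he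
          · rw [if_pos he] at this
            linarith
          · rw [if_neg he] at this
            linarith
    _ ≤ ∑ H ∈ range (W + 1), gf (HH W d nk m H) := ENNReal.tsum_biUnion_le wE _ _

end TD

end HexObs
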