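import Pool.Agent.W47.Triangle
import Pool.Agent.Tight.GoodParts

/-!
TIGHT, direction 2: words of the equilateral triangle.
-/

set_option autoImplicit false

namespace HexObs

namespace TD

open Finset

open scoped ENNReal

/-- words of the walks from the foot in the equilateral triangle of size r that leave it through its right side -/
def Tri (r : ℕ) : Set (List Bool) := out (trap oo up (2 * r) r) oo up (rotR up)

lemma lev_eq' (t : List Bool) (i : ℕ) : lev t i = (vx oo up t i).1 + 2 * (vx oo up t i).2 := by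
  unfold lev ip up
  ring

lemma lev2_eq' (t : List Bool) (i : ℕ) : lev2 t i = 2 * (vx oo up t i).1 + (vx oo up t i).2 := by
  unfold lev2 ip up rotR
  ring

lemma lat_eq' (t : List Bool) (i : ℕ) : lat t i = (vx oo up t i).1 := by
  unfold lat cross up
  ring

structure TriP (r : ℕ) (z : List Bool) : Prop where
  pos : ∀ i, 1 ≤ i → i ≤ z.length → 2 ≤ lev z i
  top : ∀ i, 1 ≤ i → i ≤ z.length → lev z i ≤ 6 * r + 1
  rt : ∀ i, 1 ≤ i → i ≤ z.length → lev2 z i < 3 * r
  lt : ∀ i, 1 ≤ i → i ≤ z.length → lev z i - lev2 z i < 3 * r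
  inj : ∀ i k, i < k → k ≤ z.length → vx oo up z i ≠ vx oo up z k
  dir : dx up z z.length = rotR up
  tip2 : lev2 z (z.length + 1) = 3 * r
  tip1 : 2 ≤ lev z (z.length + 1)
  tip3 : lev z (z.length + 1) ≤ 6 * r
  len : 1 ≤ z.length

lemma tri_props {r : ℕ} (hr : 1 ≤ r) {z : List Bool} (hz : z ∈ Tri r) : TriP r z := by
  obtain ⟨h1, h2, h3⟩ := hz
  have hsub : ∀ p : Pt, p - oo = p := fun p => sub_zero p
  have hlen : 1 ≤ z.length := by
    by_contra hcon
    have hz : z = [] := List.length_eq_zero_iff.1 (by omega)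
    rw [hz] at h3
    revert h3
    decide
  have hmem : ∀ i, 1 ≤ i → i ≤ z.length → 0 < lev z i ∧ lev z i < 6 * r + 2 ∧ lev2 z i < 3 * r ∧
      lev z i - lev2 z i < 3 * r := by
    intro i h4 h5
    obtain ⟨⟨_, a2, a3⟩, a4, a5⟩ := h1.mem i h4 h5
    rw [hsub] at a2 a3 a4 a5
    refine ⟨a2, ?_, a5, ?_⟩
    · have : lev z i < 3 * (2 * r : ℕ) + 2 := a3
      push_cast at this
      linarith
    · rw [lev_eq', lev2_eq']
      have e : ip (vx oo up z i) (rotL up) = -(vx oo up z i).1 + (vx oo up z i).2 := by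
        unfold ip rotL up
        ring
      rw [e] at a4
      linarith
  have hex := trap_exit tri_up_mem (by omega) hr h1 h2
  have htip : lev2 z (z.length + 1) = 3 * r ∧ ∃ j : ℕ, 1 ≤ j ∧ j ≤ 2 * r ∧ lev z (z.length + 1) = 3 * j := by
    rcases hex with ⟨hd, _⟩ | ⟨hd, _⟩ | ⟨b, hd, hi, _, j, hj1, hj2, hj3⟩
    · rw [h3] at hd
      exact absurd hd (by decide)
    · rw [h3] at hd
      exact absurd hd (by decide)
    · cases b
      · rw [hsub] at hi hj3
        exact ⟨hi, j, hj1, hj2, hj3⟩
      · rw [h3] at hd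
        exact absurd hd (by decide)
  obtain ⟨ht1, j, hj1, hj2, hj3⟩ := htip
  refine ⟨?_, ?_, ?_, ?_, h1.inj, h3, ht1, ?_, ?_, hlen⟩
  · intro i h4 h5
    have h6 := (hmem i h4 h5).1
    have h7 := lev_mod z i
    split_ifs at h7 <;> omega
  · intro i h4 h5
    have := (hmem i h4 h5).2.1
    omega
  · exact fun i h4 h5 => (hmem i h4 h5).2.2.1
  · exact fun i h4 h5 => (hmem i h4 h5).2.2.2
  · omega
  · omega

/-- the weight of the triangle words -/
lemma gf_Tri {r : ℕ} (hr : 1 ≤ r) : ENNReal.ofReal (uu (2 * r) / 2) ≤ gf (Tri r) := by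
  have h1 := tri_identity hr
  have h2 : (1 : ℝ≥0∞) ≤ 2 * gf (Tri r) + ENNReal.ofReal (Real.cos (3 * Real.pi / 8)) * AT (2 * r) := by
    rw [← h1]
    refine add_le_add ?_ (mul_le_mul_right (tri_down hr) _)
    show ENNReal.ofReal (2 * Real.cos (Real.pi / 8)) * gf (Tri r) ≤ _
    refine mul_le_mul_left ?_ _
    have : (2 : ℝ≥0∞) = ENNReal.ofReal 2 := by simp
    rw [this]
    apply ENNReal.ofReal_le_ofReal
    have := Real.cos_le_one (Real.pi / 8)
    linarith
  have h3 := BT_add_AT (T := 2 * r) (by omega)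
  rw [← h3] at h2
  have hAT : ENNReal.ofReal (Real.cos (3 * Real.pi / 8)) * AT (2 * r) ≠ ∞ :=
    ENNReal.mul_ne_top ENNReal.ofReal_ne_top (AT_ne_top (by omega))
  have h4 : BT (2 * r) ≤ 2 * gf (Tri r) := (ENNReal.add_le_add_iff_right hAT).1 h2
  have h5 : ENNReal.ofReal (uu (2 * r)) = BT (2 * r) := by
    unfold uu
    exact ENNReal.ofReal_toReal (BT_ne_top (by omega))
  rw [ENNReal.ofReal_div_of_pos (by norm_num), h5]
  have e2 : ENNReal.ofReal 2 = 2 := by simp
  rw [e2]
  apply ENNReal.div_le_of_le_mul'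
  exact h4

/-- rotation of the frame -/
lemma vx_rotL (t : List Bool) (p : Pt) (i : ℕ) : vx p (rotL up) t i = p + rotL (vx oo up t i) := by
  have h := vx_mulE (rotTo up (rotL up)) oo p up t i
  rw [rotTo_apply (rotL up) upd] at h
  have e : ∀ q : Pt, mulE (rotTo up (rotL up)) q = rotL q := by
    intro q
    have : rotTo up (rotL up) = (0, 1) := by decide
    rw [this]
    unfold mulE rotL
    ext <;> simp
  rw [e] at h
  rw [h]
  congr 1
  show rotL (vx oo up t i - oo) = _
  rw [show vx oo up t i - oo = vx oo up t i from sub_zero _]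

/-- second part of a concatenation when the first part ends in the direction rotL up -/
lemma vx_catL {s t : List Bool} (hs : dx up s s.length = rotL up) (j : ℕ) :
    vx oo up (s ++ t) (s.length + j) = vx oo up s s.length + rotL (vx oo up t j) := by
  have h1 : vx oo up (s ++ t) (s.length + j) =
      vx (vx oo up (s ++ t) s.length) (dx up (s ++ t) s.length) t j := by
    unfold vx dx
    rw [vs_shift]
    apply vs_congr
    intro k _
    exact tf_append_right k
  have e1 : vx oo up (s ++ t) s.length = vx oo up s s.length := vx_append (by omega)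
  have e2 : dx up (s ++ t) s.length = rotL up := (dx_append le_rfl).trans hs
  rw [e1, e2] at h1
  rw [h1, vx_rotL]

lemma dx_rotL (t : List Bool) (i : ℕ) : dx (rotL up) t i = rotL (dx up t i) := by
  have h := dx_mulE (rotTo up (rotL up)) up t i
  rw [rotTo_apply (rotL up) upd] at h
  have e : ∀ q : Pt, mulE (rotTo up (rotL up)) q = rotL q := by
    intro q
    have : rotTo up (rotL up) = (0, 1) := by decide
    rw [this]
    unfold mulE rotL
    ext <;> simp
  rw [e] at h
  exact h

lemma dx_catL {s t : List Bool} (hs : dx up s s.length = rotL up) (j : ℕ) :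
    dx up (s ++ t) (s.length + j) = rotL (dx up t j) := by
  have h1 : dx up (s ++ t) (s.length + j) = dx (dx up (s ++ t) s.length) t j := by
    unfold dx
    rw [ds_shift]
    apply ds_congr
    intro k _
    exact tf_append_right k
  rw [h1, dx_append le_rfl, hs, dx_rotL]

/-- the reversed triangle word in the frame that starts upwards -/
lemma vx_revT {z : List Bool} (hz : dx up z z.length = rotR up) {i : ℕ} (hi : i ≤ z.length + 1) :
    vx oo up (rev z) i = rotL (vx oo up z (z.length + 1) - vx oo up z (z.length + 1 - i)) := by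
  have h1 := vx_rev oo up z i hi
  rw [hz] at h1
  have h2 := vx_mulE (rotTo up (-(rotR up))) oo (tip oo up z) up (rev z) i
  rw [rotTo_apply (-(rotR up)) upd, h1] at h2
  have e : ∀ q : Pt, mulE (rotTo up (-(rotR up))) q = rotL (rotL q) := by
    intro q
    have : rotTo up (-(rotR up)) = (-1, 1) := by decide
    rw [this]
    unfold mulE rotL
    ext <;> simp
    ring
  rw [e] at h2
  have h3 : vx oo up z (z.length + 1 - i) = vx oo up z (z.length + 1) + rotL (rotL (vx oo up (rev z) i - oo)) := h2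
  rw [h3]
  obtain ⟨⟨a, b⟩, hv⟩ : ∃ q : Pt, vx oo up (rev z) i = q := ⟨_, rfl⟩
  obtain ⟨⟨c, d⟩, hw⟩ : ∃ q : Pt, vx oo up z (z.length + 1) = q := ⟨_, rfl⟩
  rw [hv, hw]
  unfold rotL oo
  simp only [Prod.mk_sub_mk, Prod.mk_add_mk, Prod.mk.injEq]
  constructor <;> ring

lemma dx_revT {z : List Bool} (hz : dx up z z.length = rotR up) : dx up (rev z) (rev z).length = rotL up := by
  have h1 := dx_rev up z z.length le_rfl
  rw [hz, Nat.sub_self] at h1
  have h2 := dx_mulE (rotTo up (-(rotR up))) up (rev z) z.length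
  rw [rotTo_apply (-(rotR up)) upd, h1] at h2
  have e : ∀ q : Pt, mulE (rotTo up (-(rotR up))) q = rotL (rotL q) := by
    intro q
    have : rotTo up (-(rotR up)) = (-1, 1) := by decide
    rw [this]
    unfold mulE rotL
    ext <;> simp
    ring
  rw [e] at h2
  rw [rev_length]
  obtain ⟨⟨a, b⟩, hv⟩ : ∃ q : Pt, dx up (rev z) z.length = q := ⟨_, rfl⟩
  rw [hv] at h2
  rw [hv]
  have h3 : -(dx up z 0) = -up := rfl
  rw [h3] at h2
  unfold rotL up at h2
  unfold rotL up
  simp only [Prod.neg_mk, Prod.mk.injEq] at h2 ⊢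
  constructor <;> omega

end TD

end HexObs
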